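import Pool.Agent.Seat74.FQ.Tup

/-!
# Fermat's equation in the groups generated by almost all tuples of algebraic numbers

Let `P`, `κ`, `E` be natural numbers and `ε > 0`. There are `R`, `δ > 0` and `Y₀` such that for all `Y ≥ Y₀`, all `N ≥ 1`
and ALL finite sets `S 1, …, S P` of complex numbers with at least `N` elements (for instance: the elements of height at
most `Y` of a number field in small discs around given points `ξ 1, …, ξ P` of the plane or of the line, or in an orbit,
or with prescribed congruences) the following is true for all `P`-tuples `(α 1, …, α P)` in `S 1 × … × S P` with the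
exception of a proportion of at most `Y ^ ε / N`. In ALL number fields `K ⊂ ℂ` of degree at most `κ` which contain the
`α j`, if these numbers are different from zero and of absolute height at most `Y ^ E`, the equation

  `a ^ p + b ^ p + z ^ p = 0`

has no solution with an exponent `R ≤ p ≤ Y ^ δ` (not necessarily prime), with arbitrary `z ≠ 0` in `K`, and with `a` and
`b` in the multiplicative group generated by the `α j`, with exponents of absolute value at most `Y ^ δ`. So the solutions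
can be of height `exp (Y ^ δ)`. The bound for the number of the exceptions has the right order of magnitude up to
`Y ^ ε`: if the `α j` are roots of unity or powers of one number for some `j`, there can be solutions, for instance
`1 + ω ^ p + ω ^ (2 p) = 0`; one bad value of `α 1` gives `1 / N` of all tuples. For rational numbers and `K = ℚ` the
statement is a special case of Wiles' theorem.

Proof. The starting file `FewPointsAllFields` bounds the number of the points `(a : b : z)` by a small power of `Y`. The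
case `a = b` is impossible since `-2` is not a `p`-th power in a field of degree less than `p`. So a nontrivial product
of powers of the `α j` is one of few numbers. If the exponent of `α i` is not zero, then `α i` is determined by the other
numbers up to few possibilities.
-/

set_option autoImplicit false

namespace Pool.Agent.Seat74.EF.AlmostAllTuples

open Pool.Agent.Seat74.FQ

theorem roots {n : ℤ} (hn : n ≠ 0) {M : ℕ} (hM : n.natAbs ≤ M) (c : ℂ) (S : Finset ℂ)
    (hS : ∀ t ∈ S, t ≠ 0 ∧ t ^ n = c) : S.card ≤ M := by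
  classical
  have hpos : 0 < n.natAbs := Int.natAbs_pos.2 hn
  have key : ∀ d : ℂ, (∀ t ∈ S, t ^ n.natAbs = d) → S.card ≤ M := by
    intro d hd
    have hsub : S ⊆ (Polynomial.nthRoots n.natAbs d).toFinset := by
      intro t ht
      rw [Multiset.mem_toFinset, Polynomial.mem_nthRoots hpos]
      exact hd t ht
    exact (Finset.card_le_card hsub).trans ((Multiset.toFinset_card_le _).trans
      ((Polynomial.card_nthRoots _ _).trans hM))
  rcases le_total 0 n with h | h
  · refine key c fun t ht => ?_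
    rw [← (hS t ht).2, ← zpow_natCast, Int.natAbs_of_nonneg h]
  · refine key c⁻¹ fun t ht => ?_
    rw [← (hS t ht).2, ← zpow_natCast, ← zpow_neg]
    congr 1
    omega

/-- one monomial with one value -/
theorem fibre {P : ℕ} (S : Fin P → Finset ℂ) {h : Fin P → ℤ} (h0 : h ≠ 0) {M N : ℕ}
    (hM : ∀ j, (h j).natAbs ≤ M) (hN : ∀ j, N ≤ (S j).card) (β : ℂ) (T : Finset (Fin P → ℂ))
    (hT : ∀ α ∈ T, α ∈ Fintype.piFinset S ∧ (∀ j, α j ≠ 0) ∧ ∏ j, α j ^ h j = β) :
    N * T.card ≤ M * ∏ j, (S j).card := by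
  classical
  obtain ⟨i, hi⟩ : ∃ i, h i ≠ 0 := by
    by_contra hcon
    push Not at hcon
    exact h0 (funext hcon)
  have h1 : T.card ≤ M * (T.image fun α => Function.update α i 0).card := by
    refine Finset.card_le_mul_card_image _ _ fun b hb => ?_
    obtain ⟨α₀, hα₀, rfl⟩ := Finset.mem_image.1 hb
    obtain ⟨G, hG⟩ : ∃ G, G = T.filter fun α => Function.update α i 0 = Function.update α₀ i 0 :=
      ⟨_, rfl⟩
    rw [← hG]
    have hG1 : ∀ α ∈ G, α ∈ T ∧ ∀ j, j ≠ i → α j = α₀ j := by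
      intro α hα
      rw [hG] at hα
      obtain ⟨h2, h3⟩ := Finset.mem_filter.1 hα
      refine ⟨h2, fun j hj => ?_⟩
      have := congrFun h3 j
      rwa [Function.update_of_ne hj, Function.update_of_ne hj] at this
    have h4 : G.card = (G.image fun α => α i).card := by
      refine (Finset.card_image_of_injOn fun α hα α' hα' hh => ?_).symm
      funext j
      rcases eq_or_ne j i with rfl | hj
      · exact hh
      · rw [(hG1 α hα).2 j hj, (hG1 α' hα').2 j hj]
    rw [h4]
    refine roots hi (hM i) (β / ∏ j ∈ Finset.univ.erase i, α₀ j ^ h j) _ fun t ht => ?_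
    obtain ⟨α, hα, rfl⟩ := Finset.mem_image.1 ht
    obtain ⟨h5, h6⟩ := hG1 α hα
    refine ⟨(hT α h5).2.1 i, ?_⟩
    have h7 : ∏ j ∈ Finset.univ.erase i, α₀ j ^ h j ≠ 0 :=
      Finset.prod_ne_zero_iff.2 fun j _ => zpow_ne_zero _ ((hT α₀ hα₀).2.1 j)
    rw [eq_div_iff h7, ← (hT α h5).2.2, ← Finset.mul_prod_erase _ _ (Finset.mem_univ i)]
    congr 1
    refine Finset.prod_congr rfl fun j hj => ?_
    rw [h6 j (Finset.ne_of_mem_erase hj)]
  have h2 : (T.image fun α => Function.update α i 0).card ≤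
      ∏ j ∈ Finset.univ.erase i, (S j).card := by
    have hsub : (T.image fun α => Function.update α i 0) ⊆
        Fintype.piFinset (Function.update S i {0}) := by
      intro b hb
      obtain ⟨α, hα, rfl⟩ := Finset.mem_image.1 hb
      rw [Fintype.mem_piFinset]
      intro j
      rcases eq_or_ne j i with rfl | hj
      · rw [Function.update_self, Function.update_self]
        exact Finset.mem_singleton_self _
      · rw [Function.update_of_ne hj, Function.update_of_ne hj]
        exact Fintype.mem_piFinset.1 (hT α hα).1 j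
    refine (Finset.card_le_card hsub).trans ?_
    rw [Fintype.card_piFinset, ← Finset.mul_prod_erase _ _ (Finset.mem_univ i),
      Function.update_self, Finset.card_singleton, one_mul]
    refine le_of_eq (Finset.prod_congr rfl fun j hj => ?_)
    rw [Function.update_of_ne (Finset.ne_of_mem_erase hj)]
  calc N * T.card ≤ (S i).card * (M * ∏ j ∈ Finset.univ.erase i, (S j).card) :=
        Nat.mul_le_mul (hN i) (h1.trans (Nat.mul_le_mul_left _ h2))
    _ = M * ∏ j, (S j).card := by
        rw [← Finset.mul_prod_erase _ _ (Finset.mem_univ i)]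
        ring

theorem eventually_small (A : ℝ) {c : ℝ} (hc : 0 < c) : ∃ Y₀ : ℕ, ∀ Y : ℕ, Y₀ ≤ Y →
    A ≤ (Y : ℝ) ^ c := by
  have h := (tendsto_rpow_atTop hc).comp tendsto_natCast_atTop_atTop
  obtain ⟨Y₀, hY⟩ := Filter.eventually_atTop.1 (h.eventually_ge_atTop A)
  exact ⟨Y₀, fun Y h => hY Y h⟩

theorem result (P κ E : ℕ) (ε : ℝ) (hε : 0 < ε) : ∃ (R : ℕ) (δ : ℝ) (Y₀ : ℕ), 0 < δ ∧
    ∀ Y : ℕ, Y₀ ≤ Y → ∀ (N : ℕ) (S : Fin P → Finset ℂ), (∀ j, N ≤ (S j).card) →
      ∀ T : Finset (Fin P → ℂ), (∀ α ∈ T, (∀ j, α j ∈ S j) ∧ BadTuple P κ R E δ Y α) →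
        (N : ℝ) * T.card ≤ (Y : ℝ) ^ ε * ∏ j, ((S j).card : ℝ) := by
  classical
  obtain ⟨η, hη⟩ : ∃ η : ℝ, η = ε / (P + 4) := ⟨_, rfl⟩
  have hη0 : 0 < η := by rw [hη]; positivity
  obtain ⟨R, δ, hδ, hδη, H⟩ := bad_ratio P κ E η hη0
  obtain ⟨Y₀, hY₀⟩ := eventually_small (5 ^ P * 2) hη0
  refine ⟨R, δ, max Y₀ 1, hδ, fun Y hY N S hN T hT => ?_⟩
  have hYa : 1 ≤ Y := (le_max_right _ _).trans hY
  have hY1 : (1 : ℝ) ≤ Y := by exact_mod_cast hYa
  have hYη : (1 : ℝ) ≤ (Y : ℝ) ^ η := Real.one_le_rpow hY1 hη0.le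
  obtain ⟨B, hB, H⟩ := H Y hYa
  obtain ⟨M, hM⟩ : ∃ M : ℕ, M = ⌊2 * (Y : ℝ) ^ δ⌋₊ := ⟨_, rfl⟩
  have hMY : (M : ℝ) ≤ 2 * (Y : ℝ) ^ η := by
    rw [hM]
    refine (Nat.floor_le (by positivity)).trans ?_
    exact mul_le_mul_of_nonneg_left (Real.rpow_le_rpow_of_exponent_le hY1 hδη) (by norm_num)
  have hbd : ∀ x : ℤ, |(x : ℝ)| ≤ 2 * (Y : ℝ) ^ δ → x.natAbs ≤ M := by
    intro x hx
    rw [hM]
    refine Nat.le_floor ?_
    rw [Nat.cast_natAbs, Int.cast_abs]
    exact hx
  have hsub : T ⊆ ((box P M).filter (fun h => h ≠ 0) ×ˢ B).biUnion fun q =>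
      T.filter fun α => (∀ j, α j ≠ 0) ∧ ∏ j, α j ^ q.1 j = q.2 := by
    intro α hα
    obtain ⟨h, h0, h1, h2, h3⟩ := H _ (hT α hα).2
    rw [Finset.mem_biUnion]
    refine ⟨(h, _), Finset.mem_product.2 ⟨Finset.mem_filter.2 ⟨mem_box fun j => ?_, h0⟩, h2⟩,
      Finset.mem_filter.2 ⟨hα, h3, rfl⟩⟩
    have := hbd _ (h1 j)
    rw [← Int.cast_abs, ← Nat.cast_natAbs]
    exact_mod_cast this
  have hfib : ∀ q ∈ ((box P M).filter (fun h => h ≠ 0) ×ˢ B),
      N * (T.filter fun α => (∀ j, α j ≠ 0) ∧ ∏ j, α j ^ q.1 j = q.2).card ≤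
        M * ∏ j, (S j).card := by
    intro q hq
    obtain ⟨h1, h2⟩ := Finset.mem_product.1 hq
    obtain ⟨h3, h4⟩ := Finset.mem_filter.1 h1
    refine fibre S h4 (fun j => ?_) hN q.2 _ fun α hα => ?_
    · rw [box, Fintype.mem_piFinset] at h3
      have h5 := Finset.mem_Icc.1 (h3 j)
      omega
    · obtain ⟨h5, h6⟩ := Finset.mem_filter.1 hα
      exact ⟨Fintype.mem_piFinset.2 (hT α h5).1, h6⟩
  have hc1 : N * T.card ≤ (2 * M + 1) ^ P * B.card * (M * ∏ j, (S j).card) := by
    calc N * T.card ≤ N * (((box P M).filter (fun h => h ≠ 0) ×ˢ B).biUnion fun q =>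
          T.filter fun α => (∀ j, α j ≠ 0) ∧ ∏ j, α j ^ q.1 j = q.2).card :=
          Nat.mul_le_mul_left _ (Finset.card_le_card hsub)
      _ ≤ N * ∑ q ∈ ((box P M).filter (fun h => h ≠ 0) ×ˢ B),
          (T.filter fun α => (∀ j, α j ≠ 0) ∧ ∏ j, α j ^ q.1 j = q.2).card :=
          Nat.mul_le_mul_left _ Finset.card_biUnion_le
      _ = ∑ q ∈ ((box P M).filter (fun h => h ≠ 0) ×ˢ B),
          N * (T.filter fun α => (∀ j, α j ≠ 0) ∧ ∏ j, α j ^ q.1 j = q.2).card :=
          Finset.mul_sum _ _ _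
      _ ≤ ((box P M).filter (fun h => h ≠ 0) ×ˢ B).card • (M * ∏ j, (S j).card) :=
          Finset.sum_le_card_nsmul _ _ _ hfib
      _ ≤ (2 * M + 1) ^ P * B.card * (M * ∏ j, (S j).card) := by
          rw [smul_eq_mul, Finset.card_product]
          refine Nat.mul_le_mul_right _ (Nat.mul_le_mul_right _ ?_)
          rw [← card_box]
          exact Finset.card_filter_le _ _
  have hM5 : ((2 * M + 1 : ℕ) : ℝ) ≤ 5 * (Y : ℝ) ^ η := by
    push_cast
    linarith
  have hS0 : (0 : ℝ) ≤ ∏ j, ((S j).card : ℝ) := Finset.prod_nonneg fun j _ => Nat.cast_nonneg _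
  calc (N : ℝ) * T.card
      ≤ (((2 * M + 1) ^ P * B.card * (M * ∏ j, (S j).card) : ℕ) : ℝ) := by exact_mod_cast hc1
    _ = ((2 * M + 1 : ℕ) : ℝ) ^ P * (B.card : ℝ) * M * ∏ j, ((S j).card : ℝ) := by
        push_cast; ring
    _ ≤ (5 * (Y : ℝ) ^ η) ^ P * (Y : ℝ) ^ η * (2 * (Y : ℝ) ^ η) * ∏ j, ((S j).card : ℝ) := by
        gcongr
    _ = (5 ^ P * 2) * ((Y : ℝ) ^ η) ^ (P + 2) * ∏ j, ((S j).card : ℝ) := by ring
    _ ≤ (Y : ℝ) ^ η * ((Y : ℝ) ^ η) ^ (P + 2) * ∏ j, ((S j).card : ℝ) := by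
        refine mul_le_mul_of_nonneg_right (mul_le_mul_of_nonneg_right
          (hY₀ Y ((le_max_left _ _).trans hY)) (by positivity)) hS0
    _ = ((Y : ℝ) ^ η) ^ (P + 3) * ∏ j, ((S j).card : ℝ) := by ring
    _ ≤ ((Y : ℝ) ^ η) ^ (P + 4) * ∏ j, ((S j).card : ℝ) :=
        mul_le_mul_of_nonneg_right (pow_le_pow_right₀ hYη (Nat.le_succ _)) hS0
    _ = (Y : ℝ) ^ ε * ∏ j, ((S j).card : ℝ) := by
        congr 1
        rw [← Real.rpow_natCast, ← Real.rpow_mul (by positivity), hη]
        congr 1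
        push_cast
        field_simp

end Pool.Agent.Seat74.EF.AlmostAllTuples
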