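import Pool.Agent.Seat74.FQ.Tup

/-!
# Fermat's equation in the groups generated by the values of polynomials at algebraic numbers

Let `F 1, …, F P` be polynomials in one variable with complex coefficients (no condition on the coefficients) of degree
at most `D` which are multiplicatively independent modulo constants, for instance `P = 1` and `F 1 = t`, or different
monic linear polynomials. Let `κ`, `E` be natural numbers and `ε > 0`. There are `R`, `δ > 0` and `Y₀`, depending only on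
`P, D, κ, E, ε`, such that for all `Y ≥ Y₀` and ALL complex numbers `t` with at most `Y ^ ε` exceptions the following is
true: in ALL number fields `K ⊂ ℂ` of degree at most `κ` which contain the numbers `α j = F j (t)`, if these numbers are
different from zero and of absolute height at most `Y ^ E`, the equation

  `a ^ p + b ^ p + z ^ p = 0`

has no solution with an exponent `R ≤ p ≤ Y ^ δ`, with arbitrary `z ≠ 0` in `K`, and with `a` and `b` in the
multiplicative group generated by the `α j`, with exponents of absolute value at most `Y ^ δ`. The exponents `p` are not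
necessarily prime, the solutions can be of height `exp (Y ^ δ)`, and the exceptional set depends on `Y` and on the
polynomials, but not on the field.

For instance for all `t` in all number fields of degree at most `κ` of height at most `Y` (their number is about
`Y ^ (κ (κ + 1))`) with at most `Y ^ ε` exceptions there are no solutions with `a` and `b` in the group generated by `t`
and `1 - t`, of exponents `R ≤ p ≤ Y ^ δ`, in any field of degree at most `κ`. For rational `t` and `K = ℚ` this is a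
special case of Wiles' theorem.

Proof. The starting file `FewPointsAllFields` bounds the number of the points `(a : b : z)` by a small power of `Y`, so
that `a / b` is one of few numbers. The case `a = b` is excluded since `-2` is not a `p`-th power in a field of
degree less than `p`. Otherwise `a / b` is the value at `t` of a nonconstant product of powers of the `F j`.
-/

set_option autoImplicit false

namespace Pool.Agent.Seat74.EF.ValuesOfPolynomials

open Polynomial Pool.Agent.Seat74.FQ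

/-- the values of a nonconstant product of powers -/
theorem fibre {P D : ℕ} {F : Fin P → ℂ[X]} (hF : ∀ j, (F j).natDegree ≤ D)
    (hind : ∀ a b : Fin P → ℕ, a ≠ b → ∀ c : ℂ, ∏ j, F j ^ a j ≠ C c * ∏ j, F j ^ b j)
    {h : Fin P → ℤ} (h0 : h ≠ 0) {M : ℕ} (hM : ∀ j, (h j).natAbs ≤ M) (β : ℂ) :
    {t : ℂ | (∀ j, (F j).eval t ≠ 0) ∧ ∏ j, (F j).eval t ^ h j = β}.Finite ∧
    {t : ℂ | (∀ j, (F j).eval t ≠ 0) ∧ ∏ j, (F j).eval t ^ h j = β}.ncard ≤ P * (D * M) := by
  classical
  obtain ⟨G, hG⟩ : ∃ G : ℂ[X], G = ∏ j, F j ^ (h j).toNat - C β * ∏ j, F j ^ (-h j).toNat :=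
    ⟨_, rfl⟩
  have hG0 : G ≠ 0 := by
    rw [hG, sub_ne_zero]
    refine hind _ _ (fun hh => h0 ?_) β
    funext j
    have := congrFun hh j
    simp only [Pi.zero_apply]
    omega
  have hdeg : ∀ e : Fin P → ℕ, (∀ j, e j ≤ M) → (∏ j, F j ^ e j).natDegree ≤ P * (D * M) := by
    intro e he
    refine (natDegree_prod_le _ _).trans ?_
    calc ∑ j, (F j ^ e j).natDegree ≤ ∑ _j : Fin P, D * M := by
          refine Finset.sum_le_sum fun j _ => ?_
          refine natDegree_pow_le.trans ?_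
          rw [mul_comm]
          exact Nat.mul_le_mul (hF j) (he j)
      _ = P * (D * M) := by simp
  have hGdeg : G.natDegree ≤ P * (D * M) := by
    rw [hG]
    refine (natDegree_sub_le _ _).trans (max_le (hdeg _ fun j => ?_) ?_)
    · have := hM j
      omega
    · refine (natDegree_C_mul_le _ _).trans (hdeg _ fun j => ?_)
      have := hM j
      omega
  have hsub : {t : ℂ | (∀ j, (F j).eval t ≠ 0) ∧ ∏ j, (F j).eval t ^ h j = β} ⊆
      (G.roots.toFinset : Set ℂ) := by
    rintro t ⟨ht, hβ⟩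
    rw [Finset.mem_coe, Multiset.mem_toFinset, mem_roots hG0, IsRoot.def, hG, eval_sub, eval_mul,
      eval_C, eval_prod, eval_prod, sub_eq_zero, ← hβ, ← Finset.prod_mul_distrib]
    refine Finset.prod_congr rfl fun j _ => ?_
    rw [eval_pow, eval_pow, ← zpow_natCast, ← zpow_natCast, ← zpow_add₀ (ht j)]
    congr 1
    omega
  refine ⟨(Finset.finite_toSet _).subset hsub, ?_⟩
  refine (Set.ncard_le_ncard hsub (Finset.finite_toSet _)).trans ?_
  rw [Set.ncard_coe_finset]
  exact (Multiset.toFinset_card_le _).trans ((card_roots' _).trans hGdeg)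

theorem eventually_small (A : ℝ) {c : ℝ} (hc : 0 < c) : ∃ Y₀ : ℕ, ∀ Y : ℕ, Y₀ ≤ Y →
    A ≤ (Y : ℝ) ^ c := by
  have h := (tendsto_rpow_atTop hc).comp tendsto_natCast_atTop_atTop
  obtain ⟨Y₀, hY⟩ := Filter.eventually_atTop.1 (h.eventually_ge_atTop A)
  exact ⟨Y₀, fun Y h => hY Y h⟩

theorem result (P D κ E : ℕ) (ε : ℝ) (hε : 0 < ε) : ∃ (R : ℕ) (δ : ℝ) (Y₀ : ℕ), 0 < δ ∧
    ∀ Y : ℕ, Y₀ ≤ Y → ∀ F : Fin P → ℂ[X], (∀ j, (F j).natDegree ≤ D) →
      (∀ a b : Fin P → ℕ, a ≠ b → ∀ c : ℂ, ∏ j, F j ^ a j ≠ C c * ∏ j, F j ^ b j) →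
      {t : ℂ | BadTuple P κ R E δ Y fun j => (F j).eval t}.Finite ∧
      (({t : ℂ | BadTuple P κ R E δ Y fun j => (F j).eval t}.ncard : ℕ) : ℝ) ≤ (Y : ℝ) ^ ε := by
  classical
  obtain ⟨η, hη⟩ : ∃ η : ℝ, η = ε / (P + 4) := ⟨_, rfl⟩
  have hη0 : 0 < η := by rw [hη]; positivity
  obtain ⟨R, δ, hδ, hδη, H⟩ := bad_ratio P κ E η hη0
  obtain ⟨Y₀, hY₀⟩ := eventually_small (5 ^ P * (P * (D * 2))) hη0
  refine ⟨R, δ, max Y₀ 1, hδ, fun Y hY F hF hind => ?_⟩
  have hYa : 1 ≤ Y := (le_max_right _ _).trans hY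
  have hY1 : (1 : ℝ) ≤ Y := by exact_mod_cast hYa
  have hYη : (1 : ℝ) ≤ (Y : ℝ) ^ η := Real.one_le_rpow hY1 hη0.le
  obtain ⟨B, hB, H⟩ := H Y hYa
  obtain ⟨M, hM⟩ : ∃ M : ℕ, M = ⌊2 * (Y : ℝ) ^ δ⌋₊ := ⟨_, rfl⟩
  have hMY : (M : ℝ) ≤ 2 * (Y : ℝ) ^ η := by
    rw [hM]
    refine (Nat.floor_le (by positivity)).trans ?_
    exact mul_le_mul_of_nonneg_left (Real.rpow_le_rpow_of_exponent_le hY1 hδη) (by norm_num)
  have hbd : ∀ x : ℤ, |(x : ℝ)| ≤ 2 * (Y : ℝ) ^ δ → x.natAbs ≤ M := by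
    intro x hx
    rw [hM]
    refine Nat.le_floor ?_
    rw [Nat.cast_natAbs, Int.cast_abs]
    exact hx
  have hsub : {t : ℂ | BadTuple P κ R E δ Y fun j => (F j).eval t} ⊆
      ⋃ q ∈ ((box P M).filter (fun h => h ≠ 0) ×ˢ B),
        {t : ℂ | (∀ j, (F j).eval t ≠ 0) ∧ ∏ j, (F j).eval t ^ q.1 j = q.2} := by
    intro t ht
    obtain ⟨h, h0, h1, h2, h3⟩ := H _ ht
    rw [Set.mem_iUnion₂]
    refine ⟨(h, _), Finset.mem_product.2 ⟨Finset.mem_filter.2 ⟨mem_box fun j => ?_, h0⟩, h2⟩, h3,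
      rfl⟩
    have := hbd _ (h1 j)
    rw [← Int.cast_abs, ← Nat.cast_natAbs]
    exact_mod_cast this
  have hfib : ∀ q ∈ ((box P M).filter (fun h => h ≠ 0) ×ˢ B),
      {t : ℂ | (∀ j, (F j).eval t ≠ 0) ∧ ∏ j, (F j).eval t ^ q.1 j = q.2}.Finite ∧
      {t : ℂ | (∀ j, (F j).eval t ≠ 0) ∧ ∏ j, (F j).eval t ^ q.1 j = q.2}.ncard ≤
        P * (D * M) := by
    intro q hq
    obtain ⟨h1, h2⟩ := Finset.mem_product.1 hq
    obtain ⟨h3, h4⟩ := Finset.mem_filter.1 h1
    refine fibre hF hind h4 (fun j => ?_) q.2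
    rw [box, Fintype.mem_piFinset] at h3
    have h5 := Finset.mem_Icc.1 (h3 j)
    omega
  have hfin : (⋃ q ∈ ((box P M).filter (fun h => h ≠ 0) ×ˢ B),
      {t : ℂ | (∀ j, (F j).eval t ≠ 0) ∧ ∏ j, (F j).eval t ^ q.1 j = q.2}).Finite :=
    Set.Finite.biUnion (Finset.finite_toSet _) fun q hq => (hfib q (Finset.mem_coe.1 hq)).1
  refine ⟨hfin.subset hsub, ?_⟩
  have hc1 : {t : ℂ | BadTuple P κ R E δ Y fun j => (F j).eval t}.ncard ≤
      (2 * M + 1) ^ P * B.card * (P * (D * M)) := by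
    refine (Set.ncard_le_ncard hsub hfin).trans ?_
    refine (Finset.set_ncard_biUnion_le _ _).trans ?_
    refine (Finset.sum_le_card_nsmul _ _ _ fun q hq => (hfib q hq).2).trans ?_
    rw [smul_eq_mul, Finset.card_product]
    refine Nat.mul_le_mul_right _ (Nat.mul_le_mul_right _ ?_)
    rw [← card_box]
    exact Finset.card_filter_le _ _
  have hM5 : ((2 * M + 1 : ℕ) : ℝ) ≤ 5 * (Y : ℝ) ^ η := by
    push_cast
    linarith
  calc (({t : ℂ | BadTuple P κ R E δ Y fun j => (F j).eval t}.ncard : ℕ) : ℝ)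
      ≤ (((2 * M + 1) ^ P * B.card * (P * (D * M)) : ℕ) : ℝ) := by exact_mod_cast hc1
    _ = ((2 * M + 1 : ℕ) : ℝ) ^ P * (B.card : ℝ) * (P * (D * M)) := by push_cast; ring
    _ ≤ (5 * (Y : ℝ) ^ η) ^ P * (Y : ℝ) ^ η * (P * (D * (2 * (Y : ℝ) ^ η))) := by
        gcongr
    _ = (5 ^ P * (P * (D * 2))) * ((Y : ℝ) ^ η) ^ (P + 2) := by ring
    _ ≤ (Y : ℝ) ^ η * ((Y : ℝ) ^ η) ^ (P + 2) :=
        mul_le_mul_of_nonneg_right (hY₀ Y ((le_max_left _ _).trans hY)) (by positivity)
    _ = ((Y : ℝ) ^ η) ^ (P + 3) := by ring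
    _ ≤ ((Y : ℝ) ^ η) ^ (P + 4) := pow_le_pow_right₀ hYη (Nat.le_succ _)
    _ = (Y : ℝ) ^ ε := by
        rw [← Real.rpow_natCast, ← Real.rpow_mul (by positivity), hη]
        congr 1
        push_cast
        field_simp

end Pool.Agent.Seat74.EF.ValuesOfPolynomials
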